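import Pool.Agent.W78.GA.Defs
import Pool.Agent.H376R2.MR.TpartA

/-! Project GA, task GA-3: all frequencies outside a sparse set, the sparse large values, and the
conclusion of the abstract machine, second version (cell bound on average). -/

set_option autoImplicit false

namespace Pool.Agent.W586.GA

open Finset Filter Pool.Agent.H376R2.MR Pool.Agent.W78.GA

theorem tpart : S_TPART := by
  intro lev_zero lev_succ cnt P mu G hM α η hα hη
  classical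
  set β : ℝ := min α 1 / 8 with hβ
  have hβ0 : 0 < β := by positivity
  have hβ1 : β ≤ 1 := by
    have : min α 1 ≤ 1 := min_le_right _ _
    rw [hβ]; linarith
  have hβα : 4 * β ≤ α := by
    have : min α 1 ≤ α := min_le_left _ _
    have h2 : 0 < min α 1 := by positivity
    rw [hβ]; linarith
  obtain ⟨C₁, hC₁, h₁⟩ := lev_zero P mu G hM
  obtain ⟨L₁, hL₁⟩ := h₁ β hβ0 hβ1
  obtain ⟨C₂, hC₂, h₂⟩ := lev_succ P mu G hM
  obtain ⟨L₂, hL₂⟩ := h₂ β hβ0 hβ1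
  obtain ⟨L₃, hL₃⟩ := cnt P mu G hM β hβ0 hβ1
  set C : ℝ := max C₁ C₂ with hC
  have hC0 : 0 < C := lt_of_lt_of_le hC₁ (le_max_left _ _)
  -- choice of L
  have hlim : Tendsto (fun L : ℕ => 2 * C / Real.log L) atTop (nhds 0) :=
    Tendsto.div_atTop tendsto_const_nhds (Real.tendsto_log_atTop.comp tendsto_natCast_atTop_atTop)
  obtain ⟨L₄, hL₄⟩ := eventually_atTop.1 ((tendsto_order.1 hlim).2 η hη)
  set L : ℕ := max (max L₁ L₂) (max L₃ (max L₄ 2)) with hL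
  have hLL₁ : L₁ ≤ L := le_trans (le_max_left _ _) (le_max_left _ _)
  have hLL₂ : L₂ ≤ L := le_trans (le_max_right _ _) (le_max_left _ _)
  have hLL₃ : L₃ ≤ L := le_trans (le_max_left _ _) (le_max_right _ _)
  have hLL₄ : L₄ ≤ L := le_trans (le_trans (le_max_left _ _) (le_max_right _ _)) (le_max_right _ _)
  have hL2 : 2 ≤ L := le_trans (le_trans (le_max_right _ _) (le_max_right _ _)) (le_max_right _ _)
  clear_value L
  have hL2' : (2 : ℝ) ≤ L := by exact_mod_cast hL2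
  have hlogL : 0 < Real.log L := Real.log_pos (by linarith)
  have hCL : 2 * C / Real.log L ≤ η := (hL₄ L hLL₄).le
  obtain ⟨Y₃, hY₃⟩ := hL₃ L hLL₃
  refine ⟨Real.exp ((L : ℝ) ^ 2), Real.one_le_exp (by positivity),
    max Y₃ (Real.exp ((L : ℝ) ^ 4)), ?_⟩
  intro Y hY
  have hYY₃ : Y₃ ≤ Y := le_trans (le_max_left _ _) hY
  have hYL : Real.exp ((L : ℝ) ^ 4) ≤ Y := le_trans (le_max_right _ _) hY
  have hY1 : 1 ≤ Y := le_trans (Real.one_le_exp (by positivity)) hYL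
  have hY0 : 0 < Y := by linarith
  have hlogY : (L : ℝ) ^ 4 ≤ Real.log Y := by
    rw [Real.le_log_iff_exp_le hY0]; exact hYL
  set K : ℕ := ⌊Y / Real.exp ((L : ℝ) ^ 2)⌋₊ with hK
  have hKY' : (K : ℝ) * Real.exp ((L : ℝ) ^ 2) ≤ Y := by
    have := Nat.floor_le (a := Y / Real.exp ((L : ℝ) ^ 2)) (by positivity)
    rwa [← hK, le_div_iff₀ (Real.exp_pos _)] at this
  have hKY : (K : ℝ) ≤ Y := by
    have h1 : (1 : ℝ) ≤ Real.exp ((L : ℝ) ^ 2) := Real.one_le_exp (by positivity)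
    have h2 : (0 : ℝ) ≤ K := by positivity
    nlinarith
  rcases Nat.eq_zero_or_pos K with hK0 | hK0
  · refine ⟨∅, ?_, ?_⟩
    · simp only [card_empty, Nat.cast_zero]
      positivity
    · rw [hK0]
      have : FK 0 = ∅ := by simp [FK]
      rw [this]
      simp [hη.le]
  have hK1 : 1 ≤ K := hK0
  obtain ⟨J, hJ, hJ'⟩ := tpart_level hL2 hlogY
  refine ⟨(FK K).filter (fun k => ∀ j ≤ J, ¬ SmjA P L β j k), ?_, ?_⟩
  · have h1 := hY₃ Y hYY₃ J K (hJ J le_rfl) hJ' hKY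
    have h2 : ((FK K).filter (fun k => ∀ j ≤ J, ¬ SmjA P L β j k)).card ≤
        ((FK K).filter (fun k => ¬ SmjA P L β J k)).card := by
      refine card_le_card (fun k hk => ?_)
      rw [mem_filter] at hk ⊢
      exact ⟨hk.1, hk.2 J le_rfl⟩
    have h3 : (((FK K).filter (fun k => ¬ SmjA P L β J k)).card : ℝ) ≤ Y ^ (4 * β) := by
      convert h1
    calc (((FK K).filter (fun k => ∀ j ≤ J, ¬ SmjA P L β j k)).card : ℝ)
        ≤ (((FK K).filter (fun k => ¬ SmjA P L β J k)).card : ℝ) := by exact_mod_cast h2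
      _ ≤ Y ^ (4 * β) := h3
      _ ≤ Y ^ α := Real.rpow_le_rpow_of_exponent_le hY1 hβα
  · set A : Finset ℤ := (FK K).filter (fun k => SmjA P L β 0 k) with hA
    set B : ℕ → Finset ℤ := fun j => (FK K).filter (fun k => SmjA P L β (j + 1) k ∧ ¬ SmjA P L β j k)
      with hB
    have hsub : FK K \ (FK K).filter (fun k => ∀ j ≤ J, ¬ SmjA P L β j k) ⊆
        A ∪ (range J).biUnion B := by
      intro k hk
      rw [Finset.mem_sdiff, mem_filter] at hk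
      obtain ⟨hkK, hk2⟩ := hk
      have hk3 : ∃ j, j ≤ J ∧ SmjA P L β j k := by
        by_contra hcon
        push Not at hcon
        exact hk2 ⟨hkK, fun j hj => hcon j hj⟩
      have hfs := Nat.find_spec hk3
      have hfm := fun m (hm : m < Nat.find hk3) => Nat.find_min hk3 hm
      set i := Nat.find hk3 with hi
      rw [mem_union]
      rcases Nat.eq_zero_or_pos i with h0 | h0
      · left
        rw [hA, mem_filter]
        rw [h0] at hfs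
        exact ⟨hkK, hfs.2⟩
      · right
        rw [mem_biUnion]
        obtain ⟨m, hm⟩ := Nat.exists_eq_succ_of_ne_zero h0.ne'
        refine ⟨m, ?_, ?_⟩
        · rw [mem_range]; omega
        · rw [hB, mem_filter]
          refine ⟨hkK, ?_, ?_⟩
          · rw [← Nat.succ_eq_add_one, ← hm]; exact hfs.2
          · intro hcon
            exact hfm m (by omega) ⟨by omega, hcon⟩
    have hsumA : ∑ k ∈ A, ‖G Y k‖ ^ 2 ≤ C / Real.log L := by
      have h1 := hL₁ L hLL₁ Y K (le_trans (Real.exp_le_exp.2 (by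
        nlinarith [sq_nonneg ((L : ℝ) ^ 2), pow_le_pow_left₀ (by norm_num) hL2' 2])) hYL) hK1 hKY'
      have h2 : ∑ k ∈ A, ‖G Y k‖ ^ 2 ≤ C₁ / Real.log L := by convert h1
      refine h2.trans ?_
      exact div_le_div_of_nonneg_right (le_max_left _ _) hlogL.le
    have hsumB : ∀ j ∈ range J, ∑ k ∈ B j, ‖G Y k‖ ^ 2 ≤ C / Real.log L * (1 / 3 ^ (j + 1)) := by
      intro j hj
      rw [mem_range] at hj
      have hlj := hJ (j + 1) (by omega)
      have hl2 : (2 : ℝ) ≤ LL L (j + 1) := by exact_mod_cast tpart_LL_ge hL2 (j + 1)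
      have h1 := hL₂ L hLL₂ j Y K (by
        rw [← Real.le_log_iff_exp_le hY0]
        refine le_trans ?_ hlj
        nlinarith [sq_nonneg ((LL L (j + 1) : ℝ) ^ 2), pow_le_pow_left₀ (by norm_num) hl2 2])
        hK1 hKY
      have h2 : ∑ k ∈ B j, ‖G Y k‖ ^ 2 ≤ C₂ / (3 ^ (j + 1) * Real.log L) := by convert h1
      refine h2.trans ?_
      rw [div_mul_div_comm, mul_one, mul_comm (Real.log L)]
      exact div_le_div_of_nonneg_right (le_max_right _ _) (by positivity)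
    calc ∑ k ∈ FK K \ (FK K).filter (fun k => ∀ j ≤ J, ¬ SmjA P L β j k), ‖G Y k‖ ^ 2
        ≤ ∑ k ∈ A ∪ (range J).biUnion B, ‖G Y k‖ ^ 2 :=
          sum_le_sum_of_subset_of_nonneg hsub (fun _ _ _ => by positivity)
      _ ≤ ∑ k ∈ A, ‖G Y k‖ ^ 2 + ∑ k ∈ (range J).biUnion B, ‖G Y k‖ ^ 2 := by
          rw [← sum_union_inter]
          have : 0 ≤ ∑ k ∈ A ∩ (range J).biUnion B, ‖G Y k‖ ^ 2 :=
            sum_nonneg (fun _ _ => by positivity)
          linarith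
      _ ≤ ∑ k ∈ A, ‖G Y k‖ ^ 2 + ∑ j ∈ range J, ∑ k ∈ B j, ‖G Y k‖ ^ 2 := by
          gcongr
          exact tpart_biUnion _ _ _ (fun _ => by positivity)
      _ ≤ C / Real.log L + ∑ j ∈ range J, C / Real.log L * (1 / 3 ^ (j + 1)) := by
          gcongr with j hj
          exact hsumB j hj
      _ = C / Real.log L * (1 + ∑ j ∈ range J, (1 : ℝ) / 3 ^ (j + 1)) := by
          rw [← mul_sum]; ring
      _ ≤ C / Real.log L * (1 + 1 / 2) := by
          gcongr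
          exact tpart_geom J
      _ ≤ 2 * C / Real.log L := by
          rw [mul_div_assoc]
          have : 0 < C / Real.log L := by positivity
          linarith
      _ ≤ η := hCL

theorem mach_of (h1 : S_LEVA) (h2 : S_LEVB) (h3 : S_CNT) (h4 : S_UPART) : S_MACH := by
  classical
  intro P mu G hM η hη
  have hη2 : 0 < η / 2 := by linarith
  obtain ⟨al, hal, Y1, hup⟩ := h4 P mu G hM (η / 2) hη2
  obtain ⟨h, hh, Y2, htp⟩ := tpart h1 h2 h3 P mu G hM al (η / 2) hal hη2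
  refine ⟨h, hh, max 1 (max Y1 Y2), fun Y hY => ?_⟩
  have hY0 : 1 ≤ Y := le_trans (le_max_left _ _) hY
  have hY' : max Y1 Y2 ≤ Y := le_trans (le_max_right _ _) hY
  have hY1 : Y1 ≤ Y := le_trans (le_max_left _ _) hY'
  have hY2 : Y2 ≤ Y := le_trans (le_max_right _ _) hY'
  obtain ⟨U, hU1, hU2⟩ := htp Y hY2
  set F := FK ⌊Y / h⌋₊ with hF
  have hsplit : ∑ k ∈ F.erase 0, ‖G Y k‖ ^ 2 =
      ∑ k ∈ F.erase 0 ∩ U, ‖G Y k‖ ^ 2 + ∑ k ∈ F.erase 0 \ U, ‖G Y k‖ ^ 2 :=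
    (Finset.sum_inter_add_sum_sdiff (F.erase 0) U _).symm
  have h5 : ∑ k ∈ F.erase 0 ∩ U, ‖G Y k‖ ^ 2 ≤ η / 2 := by
    refine hup Y hY1 _ ?_ ?_
    · intro k hk
      rw [Finset.mem_inter, Finset.mem_erase] at hk
      refine ⟨hk.1.1, ?_⟩
      have hkF : k ∈ FK ⌊Y / h⌋₊ := hk.1.2
      rw [FK, Finset.mem_Ioo] at hkF
      have h3 : |(k : ℝ)| ≤ (⌊Y / h⌋₊ : ℝ) := by
        rw [abs_le]
        constructor
        · have : (-(⌊Y / h⌋₊ : ℤ) : ℤ) ≤ k := hkF.1.le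
          have := (Int.cast_le (R := ℝ)).2 this
          push_cast at this
          linarith
        · have : k ≤ (⌊Y / h⌋₊ : ℤ) := hkF.2.le
          have := (Int.cast_le (R := ℝ)).2 this
          push_cast at this
          linarith
      have h4 : (⌊Y / h⌋₊ : ℝ) ≤ Y / h := Nat.floor_le (by positivity)
      have h5 : Y / h ≤ Y := div_le_self (by linarith) hh
      linarith
    · refine le_trans ?_ hU1
      exact_mod_cast Finset.card_le_card Finset.inter_subset_right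
  have h6 : ∑ k ∈ F.erase 0 \ U, ‖G Y k‖ ^ 2 ≤ η / 2 := by
    refine le_trans (Finset.sum_le_sum_of_subset_of_nonneg ?_ (fun _ _ _ => by positivity)) hU2
    exact Finset.sdiff_subset_sdiff (Finset.erase_subset _ _) (Finset.Subset.refl _)
  rw [hsplit]
  linarith

lemma upart_add2 (t : ℝ) (ht : 0 < t) (x y : ℂ) :
    ‖x + y‖ ^ 2 ≤ (1 + t) * ‖x‖ ^ 2 + (1 + 1 / t) * ‖y‖ ^ 2 := by
  have h1 := norm_add_le x y
  have h2 : ‖x + y‖ ^ 2 ≤ (‖x‖ + ‖y‖) ^ 2 := pow_le_pow_left₀ (norm_nonneg _) h1 2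
  have h3 : 0 ≤ (1 / t) * (t * ‖x‖ - ‖y‖) ^ 2 := by positivity
  have h4 : (1 / t) * (t * ‖x‖ - ‖y‖) ^ 2 = t * ‖x‖ ^ 2 - 2 * (‖x‖ * ‖y‖) + (1 / t) * ‖y‖ ^ 2 := by
    field_simp
    ring
  nlinarith

/-- weighted Cauchy-Schwarz for one frequency -/
lemma upart_cs (s : Finset ℕ) (p g : ℕ → ℂ) :
    ‖∑ v ∈ s, p v * g v‖ ^ 2 ≤ (∑ v ∈ s, ‖p v‖) * ∑ v ∈ s, ‖p v‖ * ‖g v‖ ^ 2 := by
  have h1 : ‖∑ v ∈ s, p v * g v‖ ≤ ∑ v ∈ s, Real.sqrt ‖p v‖ * (Real.sqrt ‖p v‖ * ‖g v‖) := by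
    refine (norm_sum_le _ _).trans (Finset.sum_le_sum fun v _ => ?_)
    rw [norm_mul, ← mul_assoc, Real.mul_self_sqrt (norm_nonneg _)]
  have h2 := Finset.sum_mul_sq_le_sq_mul_sq s (fun v => Real.sqrt ‖p v‖)
    (fun v => Real.sqrt ‖p v‖ * ‖g v‖)
  have h3 : ∑ v ∈ s, Real.sqrt ‖p v‖ ^ 2 = ∑ v ∈ s, ‖p v‖ :=
    Finset.sum_congr rfl fun v _ => Real.sq_sqrt (norm_nonneg _)
  have h4 : ∑ v ∈ s, (Real.sqrt ‖p v‖ * ‖g v‖) ^ 2 = ∑ v ∈ s, ‖p v‖ * ‖g v‖ ^ 2 :=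
    Finset.sum_congr rfl fun v _ => by rw [mul_pow, Real.sq_sqrt (norm_nonneg _)]
  rw [h3, h4] at h2
  exact (pow_le_pow_left₀ (norm_nonneg _) h1 2).trans h2

/-- the mean over the cells contracts the mean square -/
lemma upart_mean2 (s : Finset ℕ) (U : Finset ℤ) (m : ℕ → ℝ) (W : ℝ) (hW : 0 < W)
    (hWW : ∑ v ∈ s, m v = W) (P : ℕ → ℤ → ℂ) (g : ℕ → ℤ → ℂ) (q A : ℝ) (hq : 0 ≤ q)
    (hPm : ∀ v k, ‖P v k‖ ≤ m v) (hP : ∀ k ∈ U, ∑ v ∈ s, ‖P v k‖ ≤ q * W)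
    (hG : ∀ v ∈ s, ∑ k ∈ U, ‖g v k‖ ^ 2 ≤ A) :
    ∑ k ∈ U, ‖-(1 / (W : ℂ)) * ∑ v ∈ s, P v k * g v k‖ ^ 2 ≤ q * A := by
  have hm : ∀ v, 0 ≤ m v := fun v => (norm_nonneg _).trans (hPm v 0)
  have h1 : ∀ k ∈ U, ‖-(1 / (W : ℂ)) * ∑ v ∈ s, P v k * g v k‖ ^ 2 ≤
      q / W * ∑ v ∈ s, m v * ‖g v k‖ ^ 2 := by
    intro k hk
    have e1 : ‖-(1 / (W : ℂ))‖ = 1 / W := by
      rw [norm_neg, norm_div, norm_one, Complex.norm_real, Real.norm_eq_abs, abs_of_pos hW]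
    rw [norm_mul, mul_pow, e1]
    have h2 := upart_cs s (fun v => P v k) (fun v => g v k)
    have h3 : ∑ v ∈ s, ‖P v k‖ * ‖g v k‖ ^ 2 ≤ ∑ v ∈ s, m v * ‖g v k‖ ^ 2 :=
      Finset.sum_le_sum fun v _ => mul_le_mul_of_nonneg_right (hPm v k) (by positivity)
    have h4 : 0 ≤ ∑ v ∈ s, ‖P v k‖ * ‖g v k‖ ^ 2 := Finset.sum_nonneg fun v _ => by positivity
    have h5 : ‖∑ v ∈ s, P v k * g v k‖ ^ 2 ≤ (q * W) * ∑ v ∈ s, m v * ‖g v k‖ ^ 2 :=
      h2.trans (mul_le_mul (hP k hk) h3 h4 (by positivity))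
    calc (1 / W) ^ 2 * ‖∑ v ∈ s, P v k * g v k‖ ^ 2
        ≤ (1 / W) ^ 2 * ((q * W) * ∑ v ∈ s, m v * ‖g v k‖ ^ 2) :=
          mul_le_mul_of_nonneg_left h5 (by positivity)
      _ = q / W * ∑ v ∈ s, m v * ‖g v k‖ ^ 2 := by
          field_simp
  calc ∑ k ∈ U, ‖-(1 / (W : ℂ)) * ∑ v ∈ s, P v k * g v k‖ ^ 2
      ≤ ∑ k ∈ U, q / W * ∑ v ∈ s, m v * ‖g v k‖ ^ 2 := Finset.sum_le_sum h1
    _ = q / W * ∑ v ∈ s, m v * ∑ k ∈ U, ‖g v k‖ ^ 2 := by
        rw [← Finset.mul_sum, Finset.sum_comm]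
        congr 1
        exact Finset.sum_congr rfl fun v _ => by rw [Finset.mul_sum]
    _ ≤ q / W * ∑ v ∈ s, m v * A := by
        refine mul_le_mul_of_nonneg_left (Finset.sum_le_sum fun v hv => ?_) (by positivity)
        exact mul_le_mul_of_nonneg_left (hG v hv) (hm v)
    _ = q * A := by
        rw [← Finset.sum_mul, hWW]
        field_simp

/-- one step of the iteration -/
lemma ustep (P : ℕ → ℕ → ℤ → ℂ) (mu : ℕ → ℕ → ℝ) (G : ℝ → ℤ → ℂ)
    (hPmu : ∀ H v k, ‖P H v k‖ ≤ mu H v) (c' : ℝ) (hc'0 : 0 < c') (hc'1 : 2 * c' ≤ 1)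
    (H m m' : ℕ) (Z : ℝ) (U : Finset ℤ) (W : ℝ) (hW : 0 < W)
    (hWW : ∑ v ∈ Ico m m', mu H v = W)
    (E : ℤ → ℂ)
    (hGG : ∀ k : ℤ, G Z k = -(1 / (W : ℂ)) *
        ∑ v ∈ Ico m m', P H v k * G (Z * Real.exp (-((v : ℝ) / H))) k + E k)
    (D : ℝ) (hD : ∑ k ∈ U, ‖E k‖ ^ 2 ≤ D)
    (hP : ∀ k ∈ U, ∑ v ∈ Ico m m', ‖P H v k‖ ≤ (1 - 2 * c') * W)
    (A : ℝ) (hA : 0 ≤ A)
    (hG : ∀ v ∈ Ico m m', ∑ k ∈ U, ‖G (Z * Real.exp (-((v : ℝ) / H))) k‖ ^ 2 ≤ A) :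
    ∑ k ∈ U, ‖G Z k‖ ^ 2 ≤ (1 - c') * A + (1 + 1 / c') * D := by
  have hmain := upart_mean2 (Ico m m') U (fun v => mu H v) W hW hWW
    (fun v k => P H v k) (fun v k => G (Z * Real.exp (-((v : ℝ) / H))) k) (1 - 2 * c') A
    (by linarith) (fun v k => hPmu H v k) hP hG
  calc ∑ k ∈ U, ‖G Z k‖ ^ 2
      ≤ ∑ k ∈ U, ((1 + c') * ‖-(1 / (W : ℂ)) * ∑ v ∈ Ico m m', P H v k *
          G (Z * Real.exp (-((v : ℝ) / H))) k‖ ^ 2 + (1 + 1 / c') * ‖E k‖ ^ 2) := by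
        refine Finset.sum_le_sum fun k _ => ?_
        rw [hGG k]
        exact upart_add2 c' hc'0 _ _
    _ = (1 + c') * (∑ k ∈ U, ‖-(1 / (W : ℂ)) * ∑ v ∈ Ico m m', P H v k *
          G (Z * Real.exp (-((v : ℝ) / H))) k‖ ^ 2) + (1 + 1 / c') * ∑ k ∈ U, ‖E k‖ ^ 2 := by
        rw [Finset.sum_add_distrib, ← Finset.mul_sum, ← Finset.mul_sum]
    _ ≤ (1 + c') * ((1 - 2 * c') * A) + (1 + 1 / c') * D := by
        refine add_le_add (mul_le_mul_of_nonneg_left hmain (by linarith))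
          (mul_le_mul_of_nonneg_left hD (by positivity))
    _ ≤ (1 - c') * A + (1 + 1 / c') * D := by
        have h1 : (1 + c') * ((1 - 2 * c') * A) = (1 - c') * A - 2 * c' ^ 2 * A := by ring
        have h2 : 0 ≤ 2 * c' ^ 2 * A := by positivity
        linarith

theorem upart : S_UPART := by
  classical
  intro P mu G hM η hη
  obtain ⟨c, hc, C₂, hWW⟩ := hM.rich
  obtain ⟨c₁, hc₁0, hc₁1, Λ, hcellM⟩ := hM.cell_avg
  obtain ⟨c', hc'⟩ : ∃ c' : ℝ, c₁ = 2 * c' := ⟨c₁ / 2, by ring⟩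
  have hc'0 : 0 < c' := by linarith
  have hc'2 : 2 * c' ≤ 1 := by linarith
  have hc'1 : c' ≤ 1 := by linarith
  rw [hc'] at hcellM
  obtain ⟨C₁, hC₁, β₁, hβ₁, Z₁, hdec⟩ := hM.dec
  obtain ⟨C₃, hC₃, β₂, hβ₂, Z₂, hsp⟩ := hM.sparse
  -- number of iterations
  obtain ⟨N₀, hN₀⟩ := exists_pow_lt_of_lt_one (show (0 : ℝ) < η / (2 * C₃) by positivity)
    (show 1 - c' < 1 by linarith)
  set N : ℕ := N₀ + 1 with hN
  have hNpos : (0 : ℝ) < N := by rw [hN]; positivity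
  have hN1 : (1 : ℝ) ≤ N := by rw [hN]; push_cast; linarith [Nat.cast_nonneg (α := ℝ) N₀]
  have hNpow : C₃ * (1 - c') ^ N ≤ η / 2 := by
    have h1 : (1 - c') ^ N ≤ (1 - c') ^ N₀ := by
      rw [hN, pow_succ]
      have h2 : 0 ≤ (1 - c') ^ N₀ := pow_nonneg (by linarith) _
      nlinarith
    calc C₃ * (1 - c') ^ N ≤ C₃ * (1 - c') ^ N₀ := mul_le_mul_of_nonneg_left h1 hC₃.le
      _ ≤ C₃ * (η / (2 * C₃)) := mul_le_mul_of_nonneg_left hN₀.le hC₃.le
      _ = η / 2 := by field_simp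
  -- the error
  set B₀ : ℝ := 4 * (1 + 1 / c') * C₁ / (c' * η) + 1 with hB₀
  have hB₀1 : 1 ≤ B₀ := by
    rw [hB₀]
    have : 0 ≤ 4 * (1 + 1 / c') * C₁ / (c' * η) := by positivity
    linarith
  have hB₀pos : 0 < B₀ := by linarith
  have hBE : (1 + 1 / c') * (C₁ * (1 / B₀ + 1 / B₀)) ≤ c' * (η / 2) := by
    have h1 : 4 * (1 + 1 / c') * C₁ / (c' * η) ≤ B₀ := by rw [hB₀]; linarith
    rw [div_le_iff₀ (by positivity)] at h1
    have h2 : (1 + 1 / c') * (C₁ * (1 / B₀ + 1 / B₀)) = (4 * (1 + 1 / c') * C₁) / (2 * B₀) := by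
      field_simp
      ring
    rw [h2, div_le_iff₀ (by positivity)]
    nlinarith
  obtain ⟨H, hH⟩ := exists_nat_ge B₀
  have hHr : (1 : ℝ) ≤ H := by linarith
  have hH1 : 1 ≤ H := by exact_mod_cast hHr
  have hHpos : (0 : ℝ) < H := by linarith
  obtain ⟨q, hq'⟩ := exists_nat_ge (Real.exp ((|C₂| + B₀) / c) + Λ)
  have hq : Real.exp ((|C₂| + B₀) / c) ≤ q := by
    have : (0 : ℝ) ≤ Λ := Nat.cast_nonneg _
    linarith
  have hqΛ : Λ ≤ q := by
    have : (Λ : ℝ) ≤ q := by linarith [Real.exp_pos ((|C₂| + B₀) / c)]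
    exact_mod_cast this
  have hq0 : (1 : ℝ) ≤ q := (Real.one_le_exp (by positivity)).trans hq
  have hqpos : (0 : ℝ) < q := by linarith
  have hqlog : C₂ + B₀ ≤ c * Real.log q := by
    have h1 : (|C₂| + B₀) / c ≤ Real.log q := by
      rw [Real.le_log_iff_exp_le hqpos]; exact hq
    rw [div_le_iff₀ hc] at h1
    have := le_abs_self C₂
    linarith
  have hq1 : 1 ≤ q := by exact_mod_cast hq0
  obtain ⟨v₀, hcell⟩ := hcellM (32 * N * q) H hH1
  have ev : ∀ᶠ Y : ℝ in atTop, 1 ≤ Y ∧ Z₁ ≤ Y ^ (3 / 4 : ℝ) ∧ Z₂ ≤ Y ^ (3 / 4 : ℝ) ∧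
      32 * N * q * ((H : ℝ) + v₀ + 1) ≤ H * Real.log Y := by
    have t1 : Tendsto (fun Y : ℝ => Y ^ (3 / 4 : ℝ)) atTop atTop :=
      tendsto_rpow_atTop (by norm_num)
    have t2 : Tendsto (fun Y : ℝ => (H : ℝ) * Real.log Y) atTop atTop :=
      Real.tendsto_log_atTop.const_mul_atTop hHpos
    filter_upwards [eventually_ge_atTop 1, t1.eventually_ge_atTop Z₁, t1.eventually_ge_atTop Z₂,
      t2.eventually_ge_atTop (32 * N * q * ((H : ℝ) + v₀ + 1))] with Y h1 h2 h3 h4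
    exact ⟨h1, h2, h3, h4⟩
  obtain ⟨Y₀, hY₀⟩ := Filter.eventually_atTop.mp ev
  set β : ℝ := min β₁ β₂ with hβdef
  have hβ : 0 < β := lt_min hβ₁ hβ₂
  refine ⟨3 / 4 * β, by positivity, Y₀, fun Y hY U hU hcard => ?_⟩
  obtain ⟨hY1, hYZ₁, hYZ₂, hYlog⟩ := hY₀ Y hY
  have hYpos : 0 < Y := by linarith
  set m : ℕ := ⌊(H : ℝ) * Real.log Y / (16 * N * q)⌋₊ with hm
  have hlogY : 0 ≤ Real.log Y := Real.log_nonneg hY1
  have hnle : (m : ℝ) ≤ H * Real.log Y / (16 * N * q) := Nat.floor_le (by positivity)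
  have hnge : (H : ℝ) * Real.log Y / (16 * N * q) - 1 < m := Nat.sub_one_lt_floor _
  have h2x : 2 * ((H : ℝ) + v₀ + 1) ≤ H * Real.log Y / (16 * N * q) := by
    rw [le_div_iff₀ (by positivity)]
    linarith
  have hv₀nn : (0 : ℝ) ≤ v₀ := Nat.cast_nonneg _
  have hnH : (H : ℝ) ≤ m := by linarith
  have hnv : (v₀ : ℝ) ≤ m := by linarith
  have hn8 : (H : ℝ) * Real.log Y / (32 * N * q) ≤ m := by
    have e : (H : ℝ) * Real.log Y / (32 * N * q) = (H * Real.log Y / (16 * N * q)) / 2 := by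
      field_simp; ring
    rw [e]
    linarith
  have hnpos : (0 : ℝ) < m := by linarith
  have hnH' : H ≤ m := by exact_mod_cast hnH
  have hnv' : v₀ ≤ m := by exact_mod_cast hnv
  set W : ℝ := ∑ v ∈ Ico m (q * m), mu H v with hW
  have hWge : B₀ ≤ W := by
    have h := hWW H m (q * m) hH1 hnH' (Nat.le_mul_of_pos_left m hq1)
    have e : (((q * m : ℕ) : ℝ) / (m : ℝ)) = q := by
      push_cast
      field_simp
    rw [e] at h
    linarith
  have hW1 : 1 ≤ W := by linarith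
  have hWpos : 0 < W := by linarith
  -- `q m / H ≤ log Y / (16 N)`
  have hqm : ((q * m : ℕ) : ℝ) / H ≤ Real.log Y / (16 * N) := by
    rw [div_le_div_iff₀ hHpos (by positivity)]
    push_cast
    rw [le_div_iff₀ (by positivity)] at hnle
    linarith
  have hexp : ∀ Z : ℝ, Y ^ (3 / 4 : ℝ) ≤ Z → Real.exp (4 * ((q * m : ℕ) : ℝ) / H) ≤ Z := by
    intro Z hZ
    refine le_trans ?_ hZ
    rw [Real.rpow_def_of_pos hYpos]
    apply Real.exp_le_exp.mpr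
    have h1 : Real.log Y / (16 * N) ≤ Real.log Y / 16 := by
      apply div_le_div_of_nonneg_left hlogY (by norm_num)
      linarith
    have h2 : 4 * ((q * m : ℕ) : ℝ) / H = 4 * (((q * m : ℕ) : ℝ) / H) := by ring
    rw [h2]
    linarith
  have hUZ : ∀ Z : ℝ, Y ^ (3 / 4 : ℝ) ≤ Z → ∀ k ∈ U, |(k : ℝ)| ≤ Z ^ (4 / 3 : ℝ) := by
    intro Z hZ k hk
    have hYp : (0 : ℝ) ≤ Y ^ (3 / 4 : ℝ) := Real.rpow_nonneg hYpos.le _
    refine (hU k hk).2.trans ?_
    calc Y = (Y ^ (3 / 4 : ℝ)) ^ (4 / 3 : ℝ) := by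
          rw [← Real.rpow_mul hYpos.le]; norm_num
      _ ≤ Z ^ (4 / 3 : ℝ) := Real.rpow_le_rpow hYp hZ (by norm_num)
  have hcardZ : ∀ Z : ℝ, Y ^ (3 / 4 : ℝ) ≤ Z → ∀ γ : ℝ, β ≤ γ → 0 < γ → (U.card : ℝ) ≤ Z ^ γ := by
    intro Z hZ γ hγ hγ0
    have hYp : (0 : ℝ) ≤ Y ^ (3 / 4 : ℝ) := Real.rpow_nonneg hYpos.le _
    refine hcard.trans ?_
    calc Y ^ (3 / 4 * β) ≤ Y ^ (3 / 4 * γ) :=
          Real.rpow_le_rpow_of_exponent_le hY1 (by linarith)
      _ = (Y ^ (3 / 4 : ℝ)) ^ γ := by rw [← Real.rpow_mul hYpos.le]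
      _ ≤ Z ^ γ := Real.rpow_le_rpow hYp hZ hγ0.le
  have hbase : ∀ Z : ℝ, Y ^ (3 / 4 : ℝ) ≤ Z → ∑ k ∈ U, ‖G Z k‖ ^ 2 ≤ C₃ := by
    intro Z hZge
    exact hsp Z (hYZ₂.trans hZge) U (hUZ Z hZge) (hcardZ Z hZge β₂ (min_le_right _ _) hβ₂)
  have hPv : ∀ k ∈ U, ∑ v ∈ Ico m (q * m), ‖P H v k‖ ≤ (1 - 2 * c') * W := by
    intro k hk
    refine hcell m (q * m) hnv' (Nat.mul_le_mul_right m hqΛ) k (hU k hk).1
      ((hU k hk).2.trans ?_)
    calc Y = Real.exp (Real.log Y) := (Real.exp_log hYpos).symm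
      _ ≤ Real.exp (((32 * N * q : ℕ) : ℝ) * (m : ℝ) / H) := by
        apply Real.exp_le_exp.mpr
        rw [le_div_iff₀ hHpos]
        rw [div_le_iff₀ (by positivity)] at hn8
        push_cast
        linarith
  -- the induction
  have key : ∀ i : ℕ, i ≤ N → ∀ Z : ℝ, Y ^ (3 / 4 + (i : ℝ) / (4 * N)) ≤ Z →
      ∑ k ∈ U, ‖G Z k‖ ^ 2 ≤ C₃ * (1 - c') ^ i + η / 2 := by
    intro i
    induction i with
    | zero =>
      intro _ Z hZ
      have h1 := hbase Z (by simpa using hZ)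
      simp only [pow_zero, mul_one]
      linarith
    | succ i ih =>
      intro hi Z hZ
      have hi' : i ≤ N := by omega
      have hZ34 : Y ^ (3 / 4 : ℝ) ≤ Z := by
        refine le_trans (Real.rpow_le_rpow_of_exponent_le hY1 ?_) hZ
        have : (0 : ℝ) ≤ ((i + 1 : ℕ) : ℝ) / (4 * N) := by positivity
        linarith
      have hZpos : 0 < Z := (Real.rpow_pos_of_pos hYpos _).trans_le hZ34
      obtain ⟨E, hGG, -, hE⟩ := hdec H m (q * m) hH1 hnH' hW1 Z (hexp Z hZ34)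
      have herr : ∑ k ∈ U, ‖E k‖ ^ 2 ≤ C₁ * (1 / B₀ + 1 / B₀) := by
        refine (hE (hYZ₁.trans hZ34) U (hUZ Z hZ34)
          (hcardZ Z hZ34 β₁ (min_le_left _ _) hβ₁)).trans ?_
        refine mul_le_mul_of_nonneg_left (add_le_add ?_ ?_) hC₁.le
        · exact div_le_div_of_nonneg_left (by norm_num) hB₀pos hWge
        · exact div_le_div_of_nonneg_left (by norm_num) hB₀pos (by nlinarith)
      have hstep := ustep P mu G hM.P_le c' hc'0 hc'2 H m (q * m) Z U W hWpos rfl E hGG _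
        herr hPv (C₃ * (1 - c') ^ i + η / 2)
        (add_nonneg (mul_nonneg hC₃.le (pow_nonneg (by linarith) _)) (by positivity)) (by
          intro v hv
          apply ih hi'
          have h1 : (v : ℝ) / H ≤ Real.log Y / (16 * N) := by
            refine le_trans ?_ hqm
            have h3 : (v : ℝ) ≤ ((q * m : ℕ) : ℝ) := by exact_mod_cast (Finset.mem_Ico.mp hv).2.le
            exact div_le_div_of_nonneg_right h3 hHpos.le
          rw [Real.rpow_def_of_pos hYpos] at hZ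
          calc Y ^ (3 / 4 + (i : ℝ) / (4 * N))
              = Real.exp (Real.log Y * (3 / 4 + (i : ℝ) / (4 * N))) := Real.rpow_def_of_pos hYpos _
            _ ≤ Real.exp (Real.log Y * (3 / 4 + ((i + 1 : ℕ) : ℝ) / (4 * N)) +
                  -((v : ℝ) / H)) := by
                apply Real.exp_le_exp.mpr
                have e1 : Real.log Y * (3 / 4 + ((i + 1 : ℕ) : ℝ) / (4 * N)) =
                    Real.log Y * (3 / 4 + (i : ℝ) / (4 * N)) + Real.log Y / (4 * N) := by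
                  push_cast
                  field_simp
                  ring
                have e2 : Real.log Y / (16 * N) ≤ Real.log Y / (4 * N) := by
                  apply div_le_div_of_nonneg_left hlogY (by positivity)
                  nlinarith
                rw [e1]
                linarith
            _ = Real.exp (Real.log Y * (3 / 4 + ((i + 1 : ℕ) : ℝ) / (4 * N))) *
                  Real.exp (-((v : ℝ) / H)) := Real.exp_add _ _
            _ ≤ Z * Real.exp (-((v : ℝ) / H)) :=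
                mul_le_mul_of_nonneg_right hZ (Real.exp_pos _).le)
      refine hstep.trans ?_
      rw [pow_succ]
      have h1 : (1 - c') * (C₃ * (1 - c') ^ i + η / 2) + c' * (η / 2) =
          C₃ * ((1 - c') ^ i * (1 - c')) + η / 2 := by ring
      linarith
  have hfin := key N le_rfl Y (by
    have : (3 / 4 + (N : ℝ) / (4 * N)) = 1 := by field_simp; ring
    rw [this, Real.rpow_one])
  linarith

end Pool.Agent.W586.GA
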